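import Pool.Agent.helper44.MDG.Spec

set_option autoImplicit false

namespace Pool.Agent.helper44.MDG

open Classical in
/-- the undominated vertices -/
noncomputable def BRG2_un {V : Type} [Fintype V] (G : SimpleGraph V) (S : Finset V) : Finset V :=
  Finset.univ.filter (fun u => ¬ Dom G S u)

open Classical in
theorem BRG2_mem {V : Type} [Fintype V] (G : SimpleGraph V) (S : Finset V) (u : V) : u ∈ BRG2_un G S ↔ ¬ Dom G S u := by
  unfold BRG2_un
  rw [Finset.mem_filter]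
  exact ⟨fun h => h.2, fun h => ⟨Finset.mem_univ _, h⟩⟩

theorem BRG2_play {V : Type} [Fintype V] [DecidableEq V] (G : SimpleGraph V) (N : V → Finset V)
    (hN : ∀ v u, u ∈ N v ↔ (u = v ∨ G.Adj v u)) (S : Finset V) (v : V) :
    Playable G S v ↔ ¬ Disjoint (N v) (BRG2_un G S) := by
  rw [Finset.not_disjoint_iff]
  constructor
  · rintro ⟨-, u, h1, h2⟩
    exact ⟨u, (hN v u).2 h1, (BRG2_mem G S u).2 h2⟩
  · rintro ⟨u, h1, h2⟩
    have h1' := (hN v u).1 h1
    have h2' := (BRG2_mem G S u).1 h2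
    refine ⟨fun hv => h2' ?_, u, h1', h2'⟩
    rcases h1' with h3 | h3
    · exact Or.inl (h3 ▸ hv)
    · exact Or.inr ⟨v, hv, h3.symm⟩

theorem BRG2_ins {V : Type} [Fintype V] [DecidableEq V] (G : SimpleGraph V) (N : V → Finset V)
    (hN : ∀ v u, u ∈ N v ↔ (u = v ∨ G.Adj v u)) (S : Finset V) (v : V) :
    BRG2_un G (insert v S) = BRG2_un G S \ N v := by
  ext u
  rw [Finset.mem_sdiff, BRG2_mem, BRG2_mem, hN]
  unfold Dom
  constructor
  · intro h
    refine ⟨fun h1 => h ?_, fun h1 => h ?_⟩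
    · rcases h1 with h1 | ⟨w, h1, h2⟩
      · exact Or.inl (Finset.mem_insert_of_mem h1)
      · exact Or.inr ⟨w, Finset.mem_insert_of_mem h1, h2⟩
    · rcases h1 with h1 | h1
      · exact Or.inl (h1 ▸ Finset.mem_insert_self _ _)
      · exact Or.inr ⟨v, Finset.mem_insert_self _ _, h1.symm⟩
  · rintro ⟨h1, h2⟩ (h3 | ⟨w, h3, h4⟩)
    · rcases Finset.mem_insert.1 h3 with h5 | h5
      · exact h2 (Or.inl h5)
      · exact h1 (Or.inl h5)
    · rcases Finset.mem_insert.1 h3 with h5 | h5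
      · exact h2 (Or.inr ((h5 ▸ h4).symm))
      · exact h1 (Or.inr ⟨w, h5, h4⟩)

theorem BRG2_gen {V : Type} [Fintype V] [DecidableEq V] (G : SimpleGraph V) (N : V → Finset V) (c : V → Bool)
    (hN : ∀ v u, u ∈ N v ↔ (u = v ∨ G.Adj v u)) {p m : Bool} {U : Finset V} (h : WU N c p m U) :
    ∀ S, U = BRG2_un G S → Wins G c p m S := by
  induction h with
  | done U h =>
    rintro S rfl
    refine Wins.done S fun v hv hp => ?_
    exact ((BRG2_play G N hN S v).1 hp) (h v hv)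
  | own U v h1 h2 _ ih =>
    rintro S rfl
    refine Wins.own S v h1 ((BRG2_play G N hN S v).2 h2) (ih _ ?_)
    rw [BRG2_ins G N hN]
  | opp U h1 _ ih =>
    rintro S rfl
    obtain ⟨v, h2, h3⟩ := h1
    refine Wins.opp S ⟨v, h2, (BRG2_play G N hN S v).2 h3⟩ fun w hw hp => ?_
    exact ih w hw ((BRG2_play G N hN S w).1 hp) _ (BRG2_ins G N hN S w).symm

theorem BRG2 : BRG_stmt := by
  intro V _ _ G N c p m hN h
  refine BRG2_gen G N c hN h ∅ ?_
  ext u
  rw [BRG2_mem]
  refine ⟨fun _ => ?_, fun _ => Finset.mem_univ _⟩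
  rintro (h1 | ⟨w, h1, -⟩)
  · exact absurd h1 (Finset.notMem_empty _)
  · exact absurd h1 (Finset.notMem_empty _)

end Pool.Agent.helper44.MDG
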