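import Pool.Agent.helper44.MDG.Spec

set_option autoImplicit false

namespace Pool.Agent.helper44.MDG

theorem CPB2_col (e : Bool) (i : ℕ) : col e (i + 1) = !(col e i) := by
  unfold col
  by_cases h : i % 2 = 0
  · have h' : ¬ (i + 1) % 2 = 0 := by omega
    rw [if_pos h, if_neg h']
  · have h' : (i + 1) % 2 = 0 := by omega
    rw [if_neg h, if_pos h', Bool.not_not]

section

variable {n r : ℕ} {s : ℕ → ℕ} {e : Bool} {c : Fin n → Bool}

theorem CPB2_mono (h : CRuns n r s e c) (i j : ℕ) (hij : i ≤ j) (hj : j ≤ r) : s i ≤ s j := by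
  induction j, hij using Nat.le_induction with
  | base => exact le_refl _
  | succ j hij ih =>
    have h1 := ih (by omega)
    have h2 := h.len j (by omega)
    omega

theorem CPB2_sep (h : CRuns n r s e c) (i j : ℕ) (hij : i < j) (hj : j < r) :
    s (i + 1) + 7 ≤ s (j + 1) := by
  have h1 := h.len j hj
  have h2 := CPB2_mono h (i + 1) j (by omega) (by omega)
  omega

theorem CPB2_lo (h : CRuns n r s e c) (i : ℕ) (hi : i < r) : 7 ≤ s (i + 1) := by
  have h1 := h.len i hi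
  omega

theorem CPB2_hi (h : CRuns n r s e c) (i : ℕ) (hi : i + 1 < r) : s (i + 1) + 7 ≤ n := by
  have h1 := CPB2_sep h i (r - 1) (by omega) (by omega)
  have h2 : r - 1 + 1 = r := by omega
  rw [h2, h.sr] at h1
  exact h1

theorem CPB2_cl (h : CRuns n r s e c) (i : ℕ) (hi : i < r) (v : Fin n)
    (h1 : s (i + 1) ≤ v.val + 4) (h2 : v.val < s (i + 1)) : c v = col e i := by
  have h3 := h.len i (by omega)
  exact h.colour i (by omega) v (by omega) h2

theorem CPB2_cr (h : CRuns n r s e c) (i : ℕ) (hi : i < r) (R : ℕ)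
    (hR : (i + 1 < r ∧ R = s (i + 1)) ∨ (i + 1 = r ∧ R = 0)) (v : Fin n)
    (h1 : R ≤ v.val) (h2 : v.val < R + 4) : c v = !(col e i) := by
  rcases hR with ⟨hr, hR⟩ | ⟨hr, hR⟩
  · have h3 := h.len (i + 1) hr
    rw [← CPB2_col]
    exact h.colour (i + 1) hr v (by omega) (by omega)
  · have h3 := h.len 0 h.pos
    rw [h.colour 0 h.pos v (by have := h.s0; omega) (by omega)]
    have h4 := h.even
    have h5 : ¬ i % 2 = 0 := by omega
    unfold col
    rw [if_neg h5, Bool.not_not, if_pos rfl]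

theorem CPB2_find (h : CRuns n r s e c) (v : ℕ) (k : ℕ) (hv : v < s k) :
    ∃ i, i < k ∧ s i ≤ v ∧ v < s (i + 1) := by
  induction k with
  | zero =>
    have := h.s0
    omega
  | succ k ih =>
    by_cases h1 : v < s k
    · obtain ⟨i, h2, h3⟩ := ih h1
      exact ⟨i, by omega, h3⟩
    · exact ⟨k, by omega, by omega, hv⟩

theorem CPB2_adj (h : CRuns n r s e c) (v u : Fin n)
    (huv : v.val + 1 = u.val ∨ (v.val + 1 = n ∧ u.val = 0)) :
    c u = c v ∨ ∃ i, i < r ∧ v.val + 1 = s (i + 1) ∧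
      ((i + 1 < r ∧ u.val = s (i + 1)) ∨ (i + 1 = r ∧ u.val = 0)) ∧
      c v = col e i ∧ c u = !(col e i) := by
  have hv := v.2
  have hu := u.2
  have hr := h.sr
  rcases huv with huv | ⟨hv1, hu1⟩
  · obtain ⟨i, hi, h1, h2⟩ := CPB2_find h v.val r (by omega)
    by_cases h3 : u.val < s (i + 1)
    · left
      rw [h.colour i hi v h1 h2, h.colour i hi u (by omega) h3]
    · right
      have h4 : u.val = s (i + 1) := by omega
      have h5 : i + 1 < r := by
        by_contra hc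
        have : i + 1 = r := by omega
        rw [this] at h4
        omega
      exact ⟨i, hi, by omega, Or.inl ⟨h5, h4⟩, h.colour i hi v h1 h2,
        CPB2_cr h i hi (s (i + 1)) (Or.inl ⟨h5, rfl⟩) u (by omega) (by omega)⟩
  · right
    have h0 := h.pos
    have h6 : r - 1 + 1 = r := by omega
    refine ⟨r - 1, by omega, by rw [h6]; omega, Or.inr ⟨by omega, hu1⟩, ?_, ?_⟩
    · exact CPB2_cl h (r - 1) (by omega) v (by rw [h6]; omega) (by rw [h6]; omega)
    · exact CPB2_cr h (r - 1) (by omega) 0 (Or.inr ⟨h6, rfl⟩) u (by omega) (by omega)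

end

theorem CPB2 : CPB_stmt := by
  intro n r s e p c h
  have hr0 := h.pos
  have hr2 := h.even
  have hn14 : 14 ≤ n := by
    have h1 := CPB2_hi h 0 (by omega)
    have h2 := CPB2_lo h 0 (by omega)
    omega
  have hn0 : 0 < n := by omega
  obtain ⟨a1, va1⟩ : ∃ f : Fin r → Fin n, ∀ i, (f i).val = A1 s e p i.val % n :=
    ⟨fun i => ⟨_, Nat.mod_lt _ hn0⟩, fun i => rfl⟩
  obtain ⟨a2, va2⟩ : ∃ f : Fin r → Fin n, ∀ i, (f i).val = A2 s e p i.val % n :=
    ⟨fun i => ⟨_, Nat.mod_lt _ hn0⟩, fun i => rfl⟩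
  obtain ⟨a3, va3⟩ : ∃ f : Fin r → Fin n, ∀ i, (f i).val = A3 s e p i.val % n :=
    ⟨fun i => ⟨_, Nat.mod_lt _ hn0⟩, fun i => rfl⟩
  obtain ⟨b1, vb1⟩ : ∃ f : Fin r → Fin n, ∀ i, (f i).val = B1 s e p i.val % n :=
    ⟨fun i => ⟨_, Nat.mod_lt _ hn0⟩, fun i => rfl⟩
  obtain ⟨b2, vb2⟩ : ∃ f : Fin r → Fin n, ∀ i, (f i).val = B2 s e p i.val % n :=
    ⟨fun i => ⟨_, Nat.mod_lt _ hn0⟩, fun i => rfl⟩
  obtain ⟨R, hR⟩ : ∃ R : Fin r → ℕ, ∀ i, (i.val + 1 < r ∧ R i = s (i.val + 1)) ∨
      (i.val + 1 = r ∧ R i = 0) := by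
    refine ⟨fun i => if i.val + 1 < r then s (i.val + 1) else 0, fun i => ?_⟩
    have := i.2
    by_cases hi : i.val + 1 < r
    · left
      exact ⟨hi, if_pos hi⟩
    · right
      exact ⟨by omega, if_neg hi⟩
  obtain ⟨L, hL⟩ : ∃ L : Fin r → ℕ, ∀ i, L i = s (i.val + 1) := ⟨fun i => s (i.val + 1), fun i => rfl⟩
  have LR : ∀ i : Fin r, 7 ≤ L i ∧ ((R i = L i ∧ L i + 7 ≤ n) ∨ (R i = 0 ∧ L i = n)) := by
    intro i
    rw [hL]
    refine ⟨CPB2_lo h _ i.2, ?_⟩
    rcases hR i with ⟨h1, h2⟩ | ⟨h1, h2⟩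
    · exact Or.inl ⟨h2, CPB2_hi h _ h1⟩
    · exact Or.inr ⟨h2, by rw [h1]; exact h.sr⟩
  have ML : ∀ i : Fin r, ∀ d, 1 ≤ d → d ≤ 3 → (s (i.val + 1) - d) % n = L i - d := by
    intro i d hd hd3
    obtain ⟨h1, h2⟩ := LR i
    rw [← hL]
    exact Nat.mod_eq_of_lt (by omega)
  have MR : ∀ i : Fin r, ∀ d, d ≤ 2 → (s (i.val + 1) + d) % n = R i + d := by
    intro i d hd3
    obtain ⟨h1, h2⟩ := LR i
    rw [← hL]
    rcases h2 with ⟨h2, h3⟩ | ⟨h2, h3⟩
    · rw [h2]
      exact Nat.mod_eq_of_lt (by omega)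
    · rw [h2, h3, Nat.add_mod_left, Nat.mod_eq_of_lt (by omega)]
      omega
  have MR0 : ∀ i : Fin r, (s (i.val + 1)) % n = R i := fun i => MR i 0 (by omega)
  have H : ∀ i : Fin r,
      ((col e i.val = p ∧ (a1 i).val = L i - 1 ∧ (a2 i).val = L i - 2 ∧
        (a3 i).val = L i - 3 ∧ (b1 i).val = R i ∧ (b2 i).val = R i + 1) ∨
      (col e i.val = !p ∧ (a1 i).val = R i ∧ (a2 i).val = R i + 1 ∧
        (a3 i).val = R i + 2 ∧ (b1 i).val = L i - 1 ∧ (b2 i).val = L i - 2)) := by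
    intro i
    by_cases hc : col e i.val = p
    · left
      refine ⟨hc, ?_, ?_, ?_, ?_, ?_⟩
      · rw [va1]; unfold A1; rw [if_pos hc]; exact ML i 1 (by omega) (by omega)
      · rw [va2]; unfold A2; rw [if_pos hc]; exact ML i 2 (by omega) (by omega)
      · rw [va3]; unfold A3; rw [if_pos hc]; exact ML i 3 (by omega) (by omega)
      · rw [vb1]; unfold B1; rw [if_pos hc]; exact MR0 i
      · rw [vb2]; unfold B2; rw [if_pos hc]; exact MR i 1 (by omega)
    · right
      refine ⟨?_, ?_, ?_, ?_, ?_, ?_⟩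
      · cases hh : col e i.val <;> cases p <;> simp_all
      · rw [va1]; unfold A1; rw [if_neg hc]; exact MR0 i
      · rw [va2]; unfold A2; rw [if_neg hc]; exact MR i 1 (by omega)
      · rw [va3]; unfold A3; rw [if_neg hc]; exact MR i 2 (by omega)
      · rw [vb1]; unfold B1; rw [if_neg hc]; exact ML i 1 (by omega) (by omega)
      · rw [vb2]; unfold B2; rw [if_neg hc]; exact ML i 2 (by omega) (by omega)
  have SEP : ∀ i j : Fin r, i = j ∨ L i + 7 ≤ L j ∨ L j + 7 ≤ L i := by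
    intro i j
    rw [hL, hL]
    rcases lt_trichotomy i.val j.val with hij | hij | hij
    · exact Or.inr (Or.inl (CPB2_sep h _ _ hij j.2))
    · exact Or.inl (Fin.ext hij)
    · exact Or.inr (Or.inr (CPB2_sep h _ _ hij i.2))
  have CL : ∀ i : Fin r, ∀ v : Fin n, L i ≤ v.val + 4 → v.val < L i → c v = col e i.val := by
    intro i v h1 h2
    rw [hL] at h1 h2
    exact CPB2_cl h i.val i.2 v h1 h2
  have CR : ∀ i : Fin r, ∀ v : Fin n, R i ≤ v.val → v.val < R i + 4 → c v = !(col e i.val) :=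
    fun i v h1 h2 => CPB2_cr h i.val i.2 (R i) (hR i) v h1 h2
  have mem : ∀ v u : Fin n, u ∈ NC n v ↔
      (u.val = v.val ∨ u.val + 1 = v.val ∨ v.val + 1 = u.val ∨
        (u.val = 0 ∧ v.val + 1 = n) ∨ (v.val = 0 ∧ u.val + 1 = n)) := by
    intro v u
    unfold NC
    rw [Finset.mem_filter]
    exact ⟨fun h => h.2, fun h => ⟨Finset.mem_univ _, h⟩⟩
  -- colours
  have ca : ∀ (i : Fin r) (v : Fin n), (v.val = (a1 i).val ∨ v.val = (a2 i).val ∨
      v.val = (a3 i).val) → c v = p := by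
    intro i v hv
    obtain ⟨h1, h2⟩ := LR i
    obtain ⟨hc, e1, e2, e3, e4, e5⟩ | ⟨hc, e1, e2, e3, e4, e5⟩ := H i
    · rw [CL i v (by omega) (by omega), hc]
    · rw [CR i v (by omega) (by omega), hc, Bool.not_not]
  have cb : ∀ (i : Fin r) (v : Fin n), (v.val = (b1 i).val ∨ v.val = (b2 i).val) →
      c v = !p := by
    intro i v hv
    obtain ⟨h1, h2⟩ := LR i
    obtain ⟨hc, e1, e2, e3, e4, e5⟩ | ⟨hc, e1, e2, e3, e4, e5⟩ := H i
    · rw [CR i v (by omega) (by omega), hc]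
    · rw [CL i v (by omega) (by omega), hc]
  -- borders between adjacent vertices
  have ADJ : ∀ v u : Fin n, (v.val + 1 = u.val ∨ (v.val + 1 = n ∧ u.val = 0)) →
      c u = c v ∨ ∃ i : Fin r,
      v.val + 1 = L i ∧ u.val = R i ∧ c v = col e i.val ∧ c u = !(col e i.val) := by
    intro v u huv
    rcases CPB2_adj h v u huv with h1 | ⟨i, hi, h1, h2, h3, h4⟩
    · exact Or.inl h1
    · refine Or.inr ⟨⟨i, hi⟩, ?_, ?_, h3, h4⟩
      · rw [hL]; exact h1
      · rcases hR ⟨i, hi⟩ with ⟨g1, g2⟩ | ⟨g1, g2⟩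
        · rcases h2 with ⟨k1, k2⟩ | ⟨k1, k2⟩
          · rw [g2]; exact k2
          · exact absurd k1 (Nat.ne_of_lt g1)
        · rcases h2 with ⟨k1, k2⟩ | ⟨k1, k2⟩
          · exact absurd g1 (Nat.ne_of_lt k1)
          · rw [g2]; exact k2
  refine ⟨a1, a2, a3, b1, b2, va1, va2, va3, vb1, vb2, ?_⟩
  have na1 := fun i => (a1 i).2
  have na2 := fun i => (a2 i).2
  have na3 := fun i => (a3 i).2
  have nb1 := fun i => (b1 i).2
  have nb2 := fun i => (b2 i).2
  constructor
  · intro v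
    exact (mem v v).2 (Or.inl rfl)
  · exact fun i => ca i _ (Or.inl rfl)
  · exact fun i => ca i _ (Or.inr (Or.inl rfl))
  · exact fun i => ca i _ (Or.inr (Or.inr rfl))
  · exact fun i => cb i _ (Or.inl rfl)
  · intro i
    ext u
    rw [mem, Finset.mem_insert, Finset.mem_insert, Finset.mem_singleton, Fin.ext_iff,
      Fin.ext_iff, Fin.ext_iff]
    have hu := u.2
    obtain ⟨h1, ⟨h2, h3⟩ | ⟨h2, h3⟩⟩ := LR i <;>
    obtain ⟨hc, e1, e2, e3, e4, e5⟩ | ⟨hc, e1, e2, e3, e4, e5⟩ := H i <;> omega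
  · intro i
    ext u
    rw [mem, Finset.mem_insert, Finset.mem_insert, Finset.mem_singleton, Fin.ext_iff,
      Fin.ext_iff, Fin.ext_iff]
    have hu := u.2
    obtain ⟨h1, ⟨h2, h3⟩ | ⟨h2, h3⟩⟩ := LR i <;>
    obtain ⟨hc, e1, e2, e3, e4, e5⟩ | ⟨hc, e1, e2, e3, e4, e5⟩ := H i <;> omega
  · intro i
    ext u
    rw [mem, Finset.mem_insert, Finset.mem_insert, Finset.mem_singleton, Fin.ext_iff,
      Fin.ext_iff, Fin.ext_iff]
    have hu := u.2
    obtain ⟨h1, ⟨h2, h3⟩ | ⟨h2, h3⟩⟩ := LR i <;>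
    obtain ⟨hc, e1, e2, e3, e4, e5⟩ | ⟨hc, e1, e2, e3, e4, e5⟩ := H i <;> omega
  · intro i
    rw [mem]
    obtain ⟨h1, ⟨h2, h3⟩ | ⟨h2, h3⟩⟩ := LR i <;>
    obtain ⟨hc, e1, e2, e3, e4, e5⟩ | ⟨hc, e1, e2, e3, e4, e5⟩ := H i <;> omega
  · intro i j
    rw [mem, mem, mem]
    have K1 := LR i
    have K2 := H i
    have K3 := LR j
    have K4 := H j
    rcases SEP i j with hij | hij
    · subst hij
      refine ⟨?_, ?_, fun _ => rfl⟩
      · omega
      · omega
    · refine ⟨?_, ?_, fun hh => ?_⟩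
      · omega
      · omega
      · exfalso
        omega
  · intro i j
    rw [Ne, Ne, Fin.ext_iff, Fin.ext_iff]
    have K1 := LR i
    have K2 := H i
    have K3 := LR j
    have K4 := H j
    rcases SEP i j with hij | hij
    · subst hij
      omega
    · omega
  · intro i j hh
    rw [Fin.ext_iff] at hh
    have K1 := LR i
    have K2 := H i
    have K3 := LR j
    have K4 := H j
    rcases SEP i j with hij | hij
    · exact hij
    · exfalso
      omega
  · intro i j hh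
    rw [Fin.ext_iff] at hh
    have K1 := LR i
    have K2 := H i
    have K3 := LR j
    have K4 := H j
    rcases SEP i j with hij | hij
    · exact hij
    · exfalso
      omega
  · intro i j hh
    rw [Fin.ext_iff] at hh
    have K1 := LR i
    have K2 := H i
    have K3 := LR j
    have K4 := H j
    rcases SEP i j with hij | hij
    · exact hij
    · exfalso
      omega
  · intro i j
    rw [Ne, Fin.ext_iff]
    have K1 := LR i
    have K2 := H i
    have K3 := LR j
    have K4 := H j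
    rcases SEP i j with hij | hij
    · subst hij
      omega
    · omega
  · intro i j
    rw [Ne, Fin.ext_iff]
    have K1 := LR i
    have K2 := H i
    have K3 := LR j
    have K4 := H j
    rcases SEP i j with hij | hij
    · subst hij
      omega
    · omega
  · intro i j hh
    rw [Fin.ext_iff] at hh
    have K1 := LR i
    have K2 := H i
    have K3 := LR j
    have K4 := H j
    rcases SEP i j with hij | hij
    · exact hij
    · exfalso
      omega
  · exact fun i => cb i _ (Or.inr rfl)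
  · intro v u hv hu
    rw [mem] at hu
    have hvn := v.2
    have hun := u.2
    have hu' : u.val = v.val ∨ (u.val + 1 = v.val ∨ (u.val + 1 = n ∧ v.val = 0)) ∨
        (v.val + 1 = u.val ∨ (v.val + 1 = n ∧ u.val = 0)) := by omega
    rcases hu' with hu | hu | hu
    · left
      rw [Fin.ext hu]
      exact hv
    · rcases ADJ u v hu with h1 | ⟨i, h1, h2, h3, h4⟩
      · left
        rw [← h1]
        exact hv
      · right
        rw [hv] at h4
        obtain ⟨g1, g2⟩ := LR i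
        obtain ⟨hc, e1, e2, e3, e4, e5⟩ | ⟨hc, e1, e2, e3, e4, e5⟩ := H i
        · exact ⟨i, Fin.ext (by omega), Fin.ext (by omega)⟩
        · rw [hc] at h4
          cases p <;> simp at h4
    · rcases ADJ v u hu with h1 | ⟨i, h1, h2, h3, h4⟩
      · left
        rw [h1]
        exact hv
      · right
        rw [hv] at h3
        obtain ⟨g1, g2⟩ := LR i
        obtain ⟨hc, e1, e2, e3, e4, e5⟩ | ⟨hc, e1, e2, e3, e4, e5⟩ := H i
        · rw [hc] at h3
          cases p <;> simp at h3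
        · exact ⟨i, Fin.ext (by omega), Fin.ext (by omega)⟩
  · intro v u hv hu
    rw [mem] at hu
    have hvn := v.2
    have hun := u.2
    have hu' : u.val = v.val ∨ (u.val + 1 = v.val ∨ (u.val + 1 = n ∧ v.val = 0)) ∨
        (v.val + 1 = u.val ∨ (v.val + 1 = n ∧ u.val = 0)) := by omega
    rcases hu' with hu | hu | hu
    · left
      rw [Fin.ext hu]
      exact hv
    · rcases ADJ u v hu with h1 | ⟨i, h1, h2, h3, h4⟩
      · left
        rw [← h1]
        exact hv
      · right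
        rw [hv] at h4
        obtain ⟨g1, g2⟩ := LR i
        obtain ⟨hc, e1, e2, e3, e4, e5⟩ | ⟨hc, e1, e2, e3, e4, e5⟩ := H i
        · rw [hc] at h4
          cases p <;> simp at h4
        · exact ⟨i, Fin.ext (by omega), Fin.ext (by omega)⟩
    · rcases ADJ v u hu with h1 | ⟨i, h1, h2, h3, h4⟩
      · left
        rw [h1]
        exact hv
      · right
        rw [hv] at h3
        obtain ⟨g1, g2⟩ := LR i
        obtain ⟨hc, e1, e2, e3, e4, e5⟩ | ⟨hc, e1, e2, e3, e4, e5⟩ := H i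
        · exact ⟨i, Fin.ext (by omega), Fin.ext (by omega)⟩
        · rw [hc] at h3
          cases p <;> simp at h3
  · intro v i j hv hi hj
    rw [mem, mem] at hi
    rw [mem, mem] at hj
    have K1 := LR i
    have K3 := LR j
    have hvn := v.2
    rcases SEP i j with hij | hij
    · exact hij
    · exfalso
      obtain ⟨h1, ⟨h2, h3⟩ | ⟨h2, h3⟩⟩ := K1 <;>
      obtain ⟨g1, ⟨g2, g3⟩ | ⟨g2, g3⟩⟩ := K3 <;>
      obtain ⟨hc, e1, e2, e3, e4, e5⟩ | ⟨hc, e1, e2, e3, e4, e5⟩ := H i <;>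
      obtain ⟨hd, f1, f2, f3, f4, f5⟩ | ⟨hd, f1, f2, f3, f4, f5⟩ := H j <;>
      rcases hi with hi | hi <;> rcases hj with hj | hj <;> omega

end Pool.Agent.helper44.MDG
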