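import Pool.Agent.helper44.MDG.STR
import Pool.Agent.helper3.MDG.PPB
import Pool.Agent.helper71.MDG.PPK
import Pool.Agent.helper54.MDG.PPC
import Pool.Agent.helper94.MDG.PPP
import Pool.Agent.helper63.MDG.CPK
import Pool.Agent.helper69.MDG.CPC
import Pool.Agent.helper60.MDG.CPP

set_option autoImplicit false

namespace Pool.Agent.helper44.MDG

theorem BPlan.plan {V ι : Type} [DecidableEq V] {N : V → Finset V} {c : V → Bool} {p : Bool}
    {a1 a2 a3 b1 b2 : ι → V} (h : BPlan N c p a1 a2 a3 b1 b2) {K : Finset V} (h1 : ∀ v ∈ K, c v = p)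
    (h2 : ∀ v ∈ K, ∀ u ∈ N v, c u = p ∧ ∀ i, u ≠ a1 i ∧ u ≠ a2 i)
    (h3 : ∀ u, c u = p → (∃ v ∈ K, u ∈ N v) ∨ ∃ i, u = a1 i ∨ u = a2 i) : Plan N c p a1 a2 a3 b1 b2 K :=
  { self := h.self, ca1 := h.ca1, ca2 := h.ca2, ca3 := h.ca3, cb1 := h.cb1, Na1 := h.Na1, Na2 := h.Na2, Nb1 := h.Nb1,
    Na3 := h.Na3, Na3' := h.Na3', a31 := h.a31, a11 := h.a11, a22 := h.a22, b11 := h.b11, a12 := h.a12, b21 := h.b21,
    b22 := h.b22, cb2 := h.cb2, cK := h1, NK := h2, cov := h3, opn := h.opn, ownn := h.ownn, sep := h.sep }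

theorem path_WU (n r : ℕ) (s : ℕ → ℕ) (e p : Bool) (c : Fin n → Bool) (h : Runs n r s e c) :
    (cntP r s e p ≤ cntP r s e (!p) → WU (NP n) c p p Finset.univ) ∧
      (cntP r s e p < cntP r s e (!p) → WU (NP n) c p (!p) Finset.univ) := by
  obtain ⟨a1, a2, a3, b1, b2, e1, e2, -, -, -, hB⟩ := PPB n r s e p c h
  obtain ⟨K, hK1, hK2, hK3, hK4⟩ := PPK n r s e p c h a1 a2 e1 e2
  obtain ⟨P, hP, hPc⟩ := PPP n r s e p c h
  have hc := PPC n r s e p c h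
  have h1 := STR (Fin n) (Fin (r - 1)) (NP n) c p a1 a2 a3 b1 b2 K P (hB.plan hK1 hK2 hK3) hP
  rw [Fintype.card_fin] at h1
  exact ⟨fun h2 => h1.1 (by omega), fun h2 => h1.2 (by omega)⟩

theorem cycle_WU (hCPB : CPB_stmt) (n r : ℕ) (s : ℕ → ℕ) (e p : Bool) (c : Fin n → Bool) (h : CRuns n r s e c) :
    (cntC r s e p ≤ cntC r s e (!p) → WU (NC n) c p p Finset.univ) ∧
      (cntC r s e p < cntC r s e (!p) → WU (NC n) c p (!p) Finset.univ) := by
  obtain ⟨a1, a2, a3, b1, b2, e1, e2, -, -, -, hB⟩ := hCPB n r s e p c h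
  obtain ⟨K, hK1, hK2, hK3, hK4⟩ := CPK n r s e p c h a1 a2 e1 e2
  obtain ⟨P, hP, hPc⟩ := CPP n r s e p c h
  have hc := CPC n r s e p c h
  have h1 := STR (Fin n) (Fin r) (NC n) c p a1 a2 a3 b1 b2 K P (hB.plan hK1 hK2 hK3) hP
  rw [Fintype.card_fin] at h1
  exact ⟨fun h2 => h1.1 (by omega), fun h2 => h1.2 (by omega)⟩

theorem mem_NP (n : ℕ) (v u : Fin n) : u ∈ NP n v ↔ (u = v ∨ (SimpleGraph.pathGraph n).Adj v u) := by
  unfold NP
  rw [Finset.mem_filter, SimpleGraph.pathGraph_adj, Fin.ext_iff]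
  constructor
  · rintro ⟨-, h1 | h1 | h1⟩
    · exact Or.inl h1
    · exact Or.inr (Or.inr h1)
    · exact Or.inr (Or.inl h1)
  · intro h1
    refine ⟨Finset.mem_univ _, ?_⟩
    rcases h1 with h1 | h1 | h1
    · exact Or.inl h1
    · exact Or.inr (Or.inr h1)
    · exact Or.inr (Or.inl h1)

theorem sub_val_eq_one (n : ℕ) (hn : 3 ≤ n) (v u : Fin n) :
    (v - u).val = 1 ↔ (u.val + 1 = v.val ∨ (v.val = 0 ∧ u.val + 1 = n)) := by
  have hv := v.isLt
  have hu := u.isLt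
  rw [Fin.val_sub]
  by_cases h : u.val ≤ v.val
  · have e : n - u.val + v.val = (v.val - u.val) + n := by omega
    rw [e, Nat.add_mod_right, Nat.mod_eq_of_lt (by omega)]
    omega
  · rw [Nat.mod_eq_of_lt (by omega)]
    omega

theorem mem_NC (n : ℕ) (hn : 3 ≤ n) (v u : Fin n) : u ∈ NC n v ↔ (u = v ∨ (SimpleGraph.cycleGraph n).Adj v u) := by
  unfold NC
  rw [Finset.mem_filter, SimpleGraph.cycleGraph_adj', Fin.ext_iff, sub_val_eq_one n hn v u, sub_val_eq_one n hn u v]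
  constructor
  · rintro ⟨-, h1 | h1 | h1 | h1 | h1⟩
    · exact Or.inl h1
    · exact Or.inr (Or.inl (Or.inl h1))
    · exact Or.inr (Or.inr (Or.inl h1))
    · exact Or.inr (Or.inr (Or.inr h1))
    · exact Or.inr (Or.inl (Or.inr h1))
  · intro h1
    refine ⟨Finset.mem_univ _, ?_⟩
    rcases h1 with h1 | (h1 | h1) | (h1 | h1)
    · exact Or.inl h1
    · exact Or.inr (Or.inl h1)
    · exact Or.inr (Or.inr (Or.inr (Or.inr h1)))
    · exact Or.inr (Or.inr (Or.inl h1))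
    · exact Or.inr (Or.inr (Or.inr (Or.inl h1)))

end Pool.Agent.helper44.MDG
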