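import Mathlib

/-!
# MP_05a1de_lc: the misère partizan domination game. The abstract strategy

`N v` is the closed neighbourhood of `v`, `c v` the owner of `v`, `U` the set of the vertices which are not
dominated yet. `WU N c p m U`: the player `p` wins (misère) if `m` moves first.
-/

set_option autoImplicit false

namespace Pool.Agent.helper44.MDG

/-- `p` wins the misère game on `U` when `m` is to move (`p` itself or the other player `!p`). -/
inductive WU {V : Type} [DecidableEq V] (N : V → Finset V) (c : V → Bool) (p : Bool) :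
    Bool → Finset V → Prop
  | done (U : Finset V) : (∀ v, c v = p → Disjoint (N v) U) → WU N c p p U
  | own (U : Finset V) (v : V) : c v = p → ¬ Disjoint (N v) U → WU N c p (!p) (U \ N v) → WU N c p p U
  | opp (U : Finset V) : (∃ v, c v = !p ∧ ¬ Disjoint (N v) U) →
      (∀ v, c v = !p → ¬ Disjoint (N v) U → WU N c p p (U \ N v)) → WU N c p (!p) U

/-- The data of the strategy of `p`: the borders `i`, with the vertices `a3 i, a2 i, a1 i` of `p` and
`b1 i, b2 i` of the other player, in this order along the graph, and the fixed plan `K`. -/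
structure Plan {V ι : Type} [DecidableEq V] (N : V → Finset V) (c : V → Bool) (p : Bool)
    (a1 a2 a3 b1 b2 : ι → V) (K : Finset V) : Prop where
  self : ∀ v, v ∈ N v
  ca1 : ∀ i, c (a1 i) = p
  ca2 : ∀ i, c (a2 i) = p
  ca3 : ∀ i, c (a3 i) = p
  cb1 : ∀ i, c (b1 i) = !p
  Na1 : ∀ i, N (a1 i) = {a2 i, a1 i, b1 i}
  Na2 : ∀ i, N (a2 i) = {a1 i, a2 i, a3 i}
  Nb1 : ∀ i, N (b1 i) = {a1 i, b1 i, b2 i}
  Na3 : ∀ i, a2 i ∈ N (a3 i)
  Na3' : ∀ i j, a1 j ∉ N (a3 i) ∧ b1 j ∉ N (a3 i) ∧ (a2 j ∈ N (a3 i) → j = i)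
  a31 : ∀ i j, a3 i ≠ a1 j ∧ a3 i ≠ a2 j
  a11 : ∀ i j, a1 i = a1 j → i = j
  a22 : ∀ i j, a2 i = a2 j → i = j
  b11 : ∀ i j, b1 i = b1 j → i = j
  a12 : ∀ i j, a1 i ≠ a2 j
  b21 : ∀ i j, b2 i ≠ b1 j
  b22 : ∀ i j, b2 i = b2 j → i = j
  cb2 : ∀ i, c (b2 i) = !p
  cK : ∀ v ∈ K, c v = p
  NK : ∀ v ∈ K, ∀ u ∈ N v, c u = p ∧ ∀ i, u ≠ a1 i ∧ u ≠ a2 i
  cov : ∀ u, c u = p → (∃ v ∈ K, u ∈ N v) ∨ ∃ i, u = a1 i ∨ u = a2 i
  opn : ∀ v u, c v = !p → u ∈ N v → c u = !p ∨ ∃ i, v = b1 i ∧ u = a1 i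
  ownn : ∀ v u, c v = p → u ∈ N v → c u = p ∨ ∃ i, v = a1 i ∧ u = b1 i
  sep : ∀ v i j, c v = !p → (a1 i ∈ N v ∨ b1 i ∈ N v) → (a1 j ∈ N v ∨ b1 j ∈ N v) → i = j

/-- A packing for the other player `!p`: vertices in the closed neighbourhoods of the vertices of `!p`,
no two of them in the same closed neighbourhood of a vertex of `!p`. -/
def Pk {V : Type} (N : V → Finset V) (c : V → Bool) (p : Bool) (P : Finset V) : Prop :=
  (∀ x ∈ P, ∃ v, c v = !p ∧ x ∈ N v) ∧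
    ∀ v, c v = !p → ∀ x ∈ P, ∀ y ∈ P, x ∈ N v → y ∈ N v → x = y

section

variable {V ι : Type} [DecidableEq V] {N : V → Finset V} {c : V → Bool} {p : Bool}
  {a1 a2 a3 b1 b2 : ι → V} {K : Finset V}

theorem Pk.mono {P Q : Finset V} (h : Pk N c p P) (hQ : Q ⊆ P) : Pk N c p Q :=
  ⟨fun x hx => h.1 x (hQ hx), fun v hv x hx y hy => h.2 v hv x (hQ hx) y (hQ hy)⟩

theorem bne {p : Bool} {q : Bool} (h1 : q = p) (h2 : q = !p) : False := by
  cases p <;> simp_all

theorem Pk.card_sdiff {P : Finset V} (h : Pk N c p P) (v : V) (hv : c v = !p) :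
    P.card ≤ (P \ N v).card + 1 := by
  have h1 : (P ∩ N v).card ≤ 1 := by
    rw [Finset.card_le_one]
    intro x hx y hy
    rw [Finset.mem_inter] at hx hy
    exact h.2 v hv x hx.1 y hy.1 hx.2 hy.2
  have h2 := Finset.card_sdiff_add_card_inter P (N v)
  omega

end

end Pool.Agent.helper44.MDG
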