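import Pool.Agent.helper44.MDG.Spec

set_option autoImplicit false

namespace Pool.Agent.helper44.MDG

section

variable {V ι : Type} [DecidableEq V] {N : V → Finset V} {c : V → Bool} {p : Bool}
  {a1 a2 a3 b1 b2 : ι → V} {K : Finset V}

theorem not_disj {S T : Finset V} {x : V} (h1 : x ∈ S) (h2 : x ∈ T) : ¬ Disjoint S T := by
  intro h
  exact (Finset.disjoint_left.1 h) h1 h2

theorem ex_of_not_disj {S T : Finset V} (h : ¬ Disjoint S T) : ∃ x, x ∈ S ∧ x ∈ T := by
  by_contra hn
  apply h
  rw [Finset.disjoint_left]
  intro x h1 h2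
  exact hn ⟨x, h1, h2⟩

theorem Plan.a2_opp (h : Plan N c p a1 a2 a3 b1 b2 K) {v : V} {i : ι} (hv : c v = !p) : a2 i ∉ N v := by
  intro h1
  rcases h.opn v _ hv h1 with h2 | ⟨j, -, h2⟩
  · exact bne (h.ca2 i) h2
  · exact h.a12 j i h2.symm

theorem Plan.a1_opp (h : Plan N c p a1 a2 a3 b1 b2 K) {v : V} {i : ι} (hv : c v = !p) (h1 : a1 i ∈ N v) :
    v = b1 i := by
  rcases h.opn v _ hv h1 with h2 | ⟨j, h3, h2⟩
  · exact (bne (h.ca1 i) h2).elim
  · rw [h3, h.a11 i j h2]

theorem Plan.b1_ne_a1 (h : Plan N c p a1 a2 a3 b1 b2 K) (i j : ι) : b1 i ≠ a1 j := by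
  intro h1
  have h2 := h.cb1 i
  rw [h1] at h2
  exact bne (h.ca1 j) h2

theorem Plan.b1_ne_a2 (h : Plan N c p a1 a2 a3 b1 b2 K) (i j : ι) : b1 i ≠ a2 j := by
  intro h1
  have h2 := h.cb1 i
  rw [h1] at h2
  exact bne (h.ca2 j) h2

theorem Plan.b2_ne_a1 (h : Plan N c p a1 a2 a3 b1 b2 K) (i j : ι) : b2 i ≠ a1 j := by
  intro h1
  have h2 := h.cb2 i
  rw [h1] at h2
  exact bne (h.ca1 j) h2

theorem Plan.b2_ne_a2 (h : Plan N c p a1 a2 a3 b1 b2 K) (i j : ι) : b2 i ≠ a2 j := by
  intro h1
  have h2 := h.cb2 i
  rw [h1] at h2
  exact bne (h.ca2 j) h2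

theorem Plan.mem_Na1 (h : Plan N c p a1 a2 a3 b1 b2 K) (i : ι) (u : V) :
    u ∈ N (a1 i) ↔ u = a2 i ∨ u = a1 i ∨ u = b1 i := by
  rw [h.Na1 i]
  simp

theorem Plan.mem_Nb1 (h : Plan N c p a1 a2 a3 b1 b2 K) (i : ι) (u : V) :
    u ∈ N (b1 i) ↔ u = a1 i ∨ u = b1 i ∨ u = b2 i := by
  rw [h.Nb1 i]
  simp

theorem Plan.mem_Na2 (h : Plan N c p a1 a2 a3 b1 b2 K) (i : ι) (u : V) :
    u ∈ N (a2 i) ↔ u = a1 i ∨ u = a2 i ∨ u = a3 i := by
  rw [h.Na2 i]
  simp

/-- The invariant. -/
def Inv (a1 a2 b1 : ι → V) (U : Finset V) : Prop :=
  ∀ i, ((a1 i ∈ U ∨ b1 i ∈ U) → a2 i ∈ U) ∧ (a1 i ∉ U → b1 i ∉ U)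

/-- The final positions. -/
def FinU (a1 a2 b1 : ι → V) (U : Finset V) : Prop :=
  (∀ i, (a1 i ∈ U ↔ a2 i ∈ U) ∧ (b1 i ∈ U → a2 i ∈ U)) ∧ ∀ u ∈ U, ∃ i, u = a1 i ∨ u = a2 i ∨ u = b1 i

theorem Plan.fin_border (h : Plan N c p a1 a2 a3 b1 b2 K) {U : Finset V} (hU : FinU a1 a2 b1 U) (i : ι) :
    FinU a1 a2 b1 (U \ N (a1 i)) := by
  refine ⟨fun j => ?_, fun u hu => hU.2 u (Finset.mem_sdiff.1 hu).1⟩
  simp only [Finset.mem_sdiff, h.mem_Na1]
  by_cases hij : j = i
  · subst hij
    simp
  · have e1 : a1 j ≠ a1 i := fun e => hij (h.a11 j i e)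
    have e2 : a2 j ≠ a2 i := fun e => hij (h.a22 j i e)
    have e3 : b1 j ≠ b1 i := fun e => hij (h.b11 j i e)
    have e4 := h.a12 j i
    have e5 := h.a12 i j
    have e6 := h.b1_ne_a1 j i
    have e7 := h.b1_ne_a2 j i
    have e8 := h.b1_ne_a1 i j
    have e9 := h.b1_ne_a2 i j
    obtain ⟨h1, h2⟩ := hU.1 j
    constructor
    · constructor
      · rintro ⟨h3, -⟩
        refine ⟨h1.1 h3, ?_⟩
        rintro (h4 | h4 | h4)
        · exact e2 h4
        · exact e5 h4.symm
        · exact e9 h4.symm
      · rintro ⟨h3, -⟩
        refine ⟨h1.2 h3, ?_⟩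
        rintro (h4 | h4 | h4)
        · exact e4 h4
        · exact e1 h4
        · exact e8 h4.symm
    · rintro ⟨h3, -⟩
      refine ⟨h2 h3, ?_⟩
      rintro (h4 | h4 | h4)
      · exact e2 h4
      · exact e5 h4.symm
      · exact e9 h4.symm

/-- The end game. -/
theorem Plan.final (h : Plan N c p a1 a2 a3 b1 b2 K) : ∀ (n : ℕ) (U : Finset V), U.card ≤ n → FinU a1 a2 b1 U →
    ((∃ i, a2 i ∈ U) → WU N c p p U) ∧
      (∀ i s, a2 i ∉ U → (s = a1 i ∨ s = b1 i) → WU N c p (!p) (insert s U)) := by
  intro n
  induction n with
  | zero =>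
    intro U hU hF
    have hU0 : U = ∅ := Finset.card_eq_zero.1 (Nat.le_zero.1 hU)
    subst hU0
    refine ⟨?_, ?_⟩
    · rintro ⟨i, hi⟩
      exact absurd hi (Finset.notMem_empty _)
    · intro i s hi hs
      refine WU.opp _ ⟨b1 i, h.cb1 i, not_disj (x := s) ?_ (Finset.mem_insert_self _ _)⟩ ?_
      · rw [h.mem_Nb1]
        rcases hs with hs | hs
        · exact Or.inl hs
        · exact Or.inr (Or.inl hs)
      · intro v hv hd
        obtain ⟨x, hx1, hx2⟩ := ex_of_not_disj hd
        have hxs : x = s := by
          rcases Finset.mem_insert.1 hx2 with h1 | h1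
          · exact h1
          · exact absurd h1 (Finset.notMem_empty _)
        subst hxs
        have e : (insert x (∅ : Finset V)) \ N v = ∅ := by
          ext u
          simp only [Finset.mem_sdiff, Finset.mem_insert, Finset.notMem_empty, or_false, iff_false]
          rintro ⟨rfl, h2⟩
          exact h2 hx1
        rw [e]
        exact WU.done _ fun w _ => Finset.disjoint_empty_right _
  | succ n ih =>
    intro U hU hF
    have hFpart : (∃ i, a2 i ∈ U) → WU N c p p U := by
      rintro ⟨i, hi⟩
      have hi1 : a1 i ∈ U := ((hF.1 i).1).2 hi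
      have hF0 := h.fin_border hF i
      have hcard : (U \ N (a1 i)).card ≤ n := by
        have h1 : (U \ N (a1 i)).card < U.card := by
          apply Finset.card_lt_card
          refine ⟨Finset.sdiff_subset, fun hs => ?_⟩
          exact (Finset.mem_sdiff.1 (hs hi1)).2 (h.self _)
        omega
      have hno : a2 i ∉ U \ N (a1 i) := by
        intro h1
        exact (Finset.mem_sdiff.1 h1).2 ((h.mem_Na1 i _).2 (Or.inl rfl))
      by_cases hb : b1 i ∈ U
      · have e : U \ N (a2 i) = insert (b1 i) (U \ N (a1 i)) := by
          ext u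
          simp only [Finset.mem_sdiff, Finset.mem_insert, h.mem_Na1, h.mem_Na2]
          constructor
          · rintro ⟨h1, h2⟩
            by_cases hu : u = b1 i
            · exact Or.inl hu
            · refine Or.inr ⟨h1, ?_⟩
              rintro (h3 | h3 | h3)
              · exact h2 (Or.inr (Or.inl h3))
              · exact h2 (Or.inl h3)
              · exact hu h3
          · rintro (h1 | ⟨h1, h2⟩)
            · subst h1
              refine ⟨hb, ?_⟩
              rintro (h3 | h3 | h3)
              · exact h.b1_ne_a1 i i h3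
              · exact h.b1_ne_a2 i i h3
              · have h4 := h.cb1 i
                rw [h3] at h4
                exact bne (h.ca3 i) h4
            · refine ⟨h1, ?_⟩
              rintro (h3 | h3 | h3)
              · exact h2 (Or.inr (Or.inl h3))
              · exact h2 (Or.inl h3)
              · subst h3
                obtain ⟨j, h4 | h4 | h4⟩ := hF.2 _ h1
                · exact (h.a31 i j).1 h4
                · exact (h.a31 i j).2 h4
                · have h5 := h.cb1 j
                  rw [← h4] at h5
                  exact bne (h.ca3 i) h5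
        refine WU.own U (a2 i) (h.ca2 i) (not_disj (h.self _) hi) ?_
        rw [e]
        exact (ih _ hcard hF0).2 i (b1 i) hno (Or.inr rfl)
      · have e : U \ N (a3 i) = insert (a1 i) (U \ N (a1 i)) := by
          ext u
          simp only [Finset.mem_sdiff, Finset.mem_insert, h.mem_Na1]
          constructor
          · rintro ⟨h1, h2⟩
            by_cases hu : u = a1 i
            · exact Or.inl hu
            · refine Or.inr ⟨h1, ?_⟩
              rintro (h3 | h3 | h3)
              · exact h2 (h3 ▸ h.Na3 i)
              · exact hu h3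
              · exact hb (h3 ▸ h1)
          · rintro (h1 | ⟨h1, h2⟩)
            · subst h1
              exact ⟨hi1, (h.Na3' i i).1⟩
            · refine ⟨h1, fun h3 => ?_⟩
              obtain ⟨j, h4 | h4 | h4⟩ := hF.2 _ h1
              · exact (h.Na3' i j).1 (h4 ▸ h3)
              · have h5 := (h.Na3' i j).2.2 (h4 ▸ h3)
                subst h5
                exact h2 (Or.inl h4)
              · exact (h.Na3' i j).2.1 (h4 ▸ h3)
        refine WU.own U (a3 i) (h.ca3 i) (not_disj (h.Na3 i) hi) ?_
        rw [e]
        exact (ih _ hcard hF0).2 i (a1 i) hno (Or.inl rfl)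
    refine ⟨hFpart, ?_⟩
    intro i s hi hs
    have hi1 : a1 i ∉ U := fun h1 => hi (((hF.1 i).1).1 h1)
    have hib : b1 i ∉ U := fun h1 => hi ((hF.1 i).2 h1)
    have hsU : s ∉ U := by
      rcases hs with hs | hs <;> rw [hs] <;> assumption
    refine WU.opp _ ⟨b1 i, h.cb1 i, not_disj (x := s) ?_ (Finset.mem_insert_self _ _)⟩ ?_
    · rw [h.mem_Nb1]
      rcases hs with hs | hs
      · exact Or.inl hs
      · exact Or.inr (Or.inl hs)
    · intro v hv hd
      -- elements of `U` in `N v` belong to one border
      by_cases hsv : s ∈ N v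
      · have e : (insert s U) \ N v = U := by
          ext u
          simp only [Finset.mem_sdiff, Finset.mem_insert]
          constructor
          · rintro ⟨rfl | h1, h2⟩
            · exact absurd hsv h2
            · exact h1
          · intro h1
            refine ⟨Or.inr h1, fun h2 => ?_⟩
            have hsv' : a1 i ∈ N v ∨ b1 i ∈ N v := by
              rcases hs with hs | hs
              · exact Or.inl (hs ▸ hsv)
              · exact Or.inr (hs ▸ hsv)
            obtain ⟨j, h4 | h4 | h4⟩ := hF.2 _ h1
            · have h5 := h.sep v i j hv hsv' (Or.inl (h4 ▸ h2))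
              subst h5
              exact hi1 (h4 ▸ h1)
            · exact h.a2_opp hv (h4 ▸ h2)
            · have h5 := h.sep v i j hv hsv' (Or.inr (h4 ▸ h2))
              subst h5
              exact hib (h4 ▸ h1)
        rw [e]
        by_cases hex : ∃ j, a2 j ∈ U
        · exact hFpart hex
        · refine WU.done _ fun w _ => ?_
          have hU0 : U = ∅ := by
            rw [Finset.eq_empty_iff_forall_notMem]
            intro u hu
            obtain ⟨j, h4 | h4 | h4⟩ := hF.2 _ hu
            · exact hex ⟨j, ((hF.1 j).1).1 (h4 ▸ hu)⟩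
            · exact hex ⟨j, h4 ▸ hu⟩
            · exact hex ⟨j, (hF.1 j).2 (h4 ▸ hu)⟩
          rw [hU0]
          exact Finset.disjoint_empty_right _
      · obtain ⟨u, hu1, hu2⟩ := ex_of_not_disj hd
        have huU : u ∈ U := by
          rcases Finset.mem_insert.1 hu2 with h1 | h1
          · exact absurd (h1 ▸ hu1) hsv
          · exact h1
        obtain ⟨j, hj2, hjv⟩ : ∃ j, a2 j ∈ U ∧ (a1 j ∈ N v ∨ b1 j ∈ N v) := by
          obtain ⟨j, h4 | h4 | h4⟩ := hF.2 _ huU
          · exact ⟨j, ((hF.1 j).1).1 (h4 ▸ huU), Or.inl (h4 ▸ hu1)⟩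
          · exact absurd (h4 ▸ hu1) (h.a2_opp hv)
          · exact ⟨j, (hF.1 j).2 (h4 ▸ huU), Or.inr (h4 ▸ hu1)⟩
        have hji : j ≠ i := by
          rintro rfl
          exact hi hj2
        have hF0 := h.fin_border hF j
        have hj1 : a1 j ∈ U := ((hF.1 j).1).2 hj2
        have hcard : (U \ N (a1 j)).card ≤ n := by
          have h1 : (U \ N (a1 j)).card < U.card := by
            apply Finset.card_lt_card
            refine ⟨Finset.sdiff_subset, fun hs => ?_⟩
            exact (Finset.mem_sdiff.1 (hs hj1)).2 (h.self _)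
          omega
        have hsN : s ∉ N (a1 j) := by
          rw [h.mem_Na1]
          rintro (h3 | h3 | h3)
          · rcases hs with hs | hs
            · exact h.a12 i j (hs ▸ h3)
            · exact h.b1_ne_a2 i j (hs ▸ h3)
          · rcases hs with hs | hs
            · exact hji (h.a11 i j (hs ▸ h3)).symm
            · exact h.b1_ne_a1 i j (hs ▸ h3)
          · rcases hs with hs | hs
            · exact h.b1_ne_a1 j i ((hs ▸ h3).symm)
            · exact hji (h.b11 i j (hs ▸ h3)).symm
        refine WU.own _ (a1 j) (h.ca1 j) (not_disj (x := a2 j) ((h.mem_Na1 j _).2 (Or.inl rfl)) ?_) ?_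
        · exact Finset.mem_sdiff.2 ⟨Finset.mem_insert_of_mem hj2, h.a2_opp hv⟩
        · have e : ((insert s U) \ N v) \ N (a1 j) = insert s (U \ N (a1 j)) := by
            ext w
            simp only [Finset.mem_sdiff, Finset.mem_insert]
            constructor
            · rintro ⟨⟨h1 | h1, h2⟩, h3⟩
              · exact Or.inl h1
              · exact Or.inr ⟨h1, h3⟩
            · rintro (h1 | ⟨h1, h3⟩)
              · subst h1
                exact ⟨⟨Or.inl rfl, hsv⟩, hsN⟩
              · refine ⟨⟨Or.inr h1, fun h2 => h3 ?_⟩, h3⟩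
                obtain ⟨l, h4 | h4 | h4⟩ := hF.2 _ h1
                · have h5 := h.sep v j l hv hjv (Or.inl (h4 ▸ h2))
                  subst h5
                  exact (h.mem_Na1 _ _).2 (Or.inr (Or.inl h4))
                · exact absurd (h4 ▸ h2) (h.a2_opp hv)
                · have h5 := h.sep v j l hv hjv (Or.inr (h4 ▸ h2))
                  subst h5
                  exact (h.mem_Na1 _ _).2 (Or.inr (Or.inr h4))
          rw [e]
          refine (ih _ hcard hF0).2 i s (fun h1 => hi (Finset.mem_sdiff.1 h1).1) hs

theorem Plan.inv_border (h : Plan N c p a1 a2 a3 b1 b2 K) {U : Finset V} (hU : Inv a1 a2 b1 U) (i : ι) :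
    Inv a1 a2 b1 (U \ N (a1 i)) := by
  intro j
  simp only [Finset.mem_sdiff, h.mem_Na1]
  by_cases hij : j = i
  · subst hij
    simp
  · have e1 : a1 j ≠ a1 i := fun e => hij (h.a11 j i e)
    have e2 : a2 j ≠ a2 i := fun e => hij (h.a22 j i e)
    have e4 := h.a12 j i
    have e5 := h.a12 i j
    have e8 := h.b1_ne_a1 i j
    have e9 := h.b1_ne_a2 i j
    obtain ⟨h1, h2⟩ := hU j
    constructor
    · intro h3
      have h3' : a1 j ∈ U ∨ b1 j ∈ U := by
        rcases h3 with h3 | h3
        · exact Or.inl h3.1
        · exact Or.inr h3.1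
      refine ⟨h1 h3', ?_⟩
      rintro (h4 | h4 | h4)
      · exact e2 h4
      · exact e5 h4.symm
      · exact e9 h4.symm
    · intro h3 h4
      have h5 : a1 j ∉ U := by
        intro h6
        apply h3
        refine ⟨h6, ?_⟩
        rintro (h4 | h4 | h4)
        · exact e4 h4
        · exact e1 h4
        · exact e8 h4.symm
      exact h2 h5 h4.1

variable [Fintype ι] [DecidableEq ι]

/-- The number of moves which the plan still needs. -/
def kk (N : V → Finset V) (a2 : ι → V) (K U : Finset V) : ℕ :=
  (K.filter (fun v => ¬ Disjoint (N v) U)).card + (Finset.univ.filter (fun i => a2 i ∈ U)).card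

theorem kk_mono {U U' : Finset V} (hs : U' ⊆ U) : kk N a2 K U' ≤ kk N a2 K U := by
  unfold kk
  apply Nat.add_le_add
  · apply Finset.card_le_card
    intro v hv
    rw [Finset.mem_filter] at hv ⊢
    refine ⟨hv.1, fun hd => hv.2 (Finset.disjoint_of_subset_right hs hd)⟩
  · apply Finset.card_le_card
    intro v hv
    rw [Finset.mem_filter] at hv ⊢
    exact ⟨hv.1, hs hv.2⟩

theorem kk_K {U : Finset V} {v : V} (hv : v ∈ K) (hd : ¬ Disjoint (N v) U) :
    kk N a2 K (U \ N v) + 1 ≤ kk N a2 K U := by
  unfold kk
  have h1 : (K.filter (fun w => ¬ Disjoint (N w) (U \ N v))).card + 1 ≤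
      (K.filter (fun w => ¬ Disjoint (N w) U)).card := by
    apply Nat.succ_le_of_lt
    apply Finset.card_lt_card
    refine ⟨?_, fun hs => ?_⟩
    · intro w hw
      rw [Finset.mem_filter] at hw ⊢
      exact ⟨hw.1, fun hd => hw.2 (Finset.disjoint_of_subset_right Finset.sdiff_subset hd)⟩
    · have h2 := hs (Finset.mem_filter.2 ⟨hv, hd⟩)
      exact (Finset.mem_filter.1 h2).2 Finset.disjoint_sdiff
  have h2 : (Finset.univ.filter (fun i => a2 i ∈ U \ N v)).card ≤ (Finset.univ.filter (fun i => a2 i ∈ U)).card := by
    apply Finset.card_le_card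
    intro w hw
    rw [Finset.mem_filter] at hw ⊢
    exact ⟨hw.1, (Finset.mem_sdiff.1 hw.2).1⟩
  omega

theorem Plan.kk_border (h : Plan N c p a1 a2 a3 b1 b2 K) {U : Finset V} {i : ι} (hi : a2 i ∈ U) :
    kk N a2 K (U \ N (a1 i)) + 1 ≤ kk N a2 K U := by
  unfold kk
  have h1 : (K.filter (fun w => ¬ Disjoint (N w) (U \ N (a1 i)))).card ≤
      (K.filter (fun w => ¬ Disjoint (N w) U)).card := by
    apply Finset.card_le_card
    intro w hw
    rw [Finset.mem_filter] at hw ⊢
    exact ⟨hw.1, fun hd => hw.2 (Finset.disjoint_of_subset_right Finset.sdiff_subset hd)⟩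
  have h2 : (Finset.univ.filter (fun j => a2 j ∈ U \ N (a1 i))).card + 1 ≤
      (Finset.univ.filter (fun j => a2 j ∈ U)).card := by
    apply Nat.succ_le_of_lt
    apply Finset.card_lt_card
    refine ⟨?_, fun hs => ?_⟩
    · intro w hw
      rw [Finset.mem_filter] at hw ⊢
      exact ⟨hw.1, (Finset.mem_sdiff.1 hw.2).1⟩
    · have h3 := hs (Finset.mem_filter.2 ⟨Finset.mem_univ i, hi⟩)
      have h4 := (Finset.mem_sdiff.1 (Finset.mem_filter.1 h3).2).2
      exact h4 ((h.mem_Na1 i _).2 (Or.inl rfl))
  omega

theorem Plan.pk_not_a2 (h : Plan N c p a1 a2 a3 b1 b2 K) {P : Finset V} (hP : Pk N c p P) (i : ι) : a2 i ∉ P := by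
  intro h1
  obtain ⟨v, hv, h2⟩ := hP.1 _ h1
  exact h.a2_opp hv h2

theorem Plan.main (h : Plan N c p a1 a2 a3 b1 b2 K) : ∀ (n : ℕ) (U P : Finset V), U.card ≤ n → Inv a1 a2 b1 U →
    Pk N c p P → P ⊆ U →
    (kk N a2 K U ≤ P.card → WU N c p p U) ∧ (kk N a2 K U + 1 ≤ P.card → WU N c p (!p) U) := by
  intro n
  induction n with
  | zero =>
    intro U P hU hI hP hPU
    have hU0 : U = ∅ := Finset.card_eq_zero.1 (Nat.le_zero.1 hU)
    subst hU0
    have hP0 : P = ∅ := Finset.subset_empty.1 hPU
    subst hP0
    refine ⟨fun _ => WU.done _ fun w _ => Finset.disjoint_empty_right _, ?_⟩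
    intro h1
    rw [Finset.card_empty] at h1
    omega
  | succ n ih =>
    intro U P hU hI hP hPU
    constructor
    · intro hk
      -- a border move
      have hbm : ∀ (Q : Finset V) (i : ι), Pk N c p Q → Q ⊆ U → a2 i ∈ U → kk N a2 K U + 1 ≤ Q.card → WU N c p p U := by
        intro Q i hQ hQU hi hkQ
        have hcard : (U \ N (a1 i)).card ≤ n := by
          have h1 : (U \ N (a1 i)).card < U.card := by
            apply Finset.card_lt_card
            refine ⟨Finset.sdiff_subset, fun hs => ?_⟩
            exact (Finset.mem_sdiff.1 (hs hi)).2 ((h.mem_Na1 i _).2 (Or.inl rfl))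
          omega
        refine WU.own U (a1 i) (h.ca1 i) (not_disj ((h.mem_Na1 i _).2 (Or.inl rfl)) hi) ?_
        have h1 := h.kk_border (K := K) hi
        have h2 : Q \ N (b1 i) ⊆ Q \ N (a1 i) := by
          intro x hx
          rw [Finset.mem_sdiff] at hx ⊢
          refine ⟨hx.1, fun hx2 => hx.2 ?_⟩
          rw [h.mem_Na1] at hx2
          rw [h.mem_Nb1]
          rcases hx2 with h3 | h3 | h3
          · exact absurd (h3 ▸ hx.1) (h.pk_not_a2 hQ i)
          · exact Or.inl h3
          · exact Or.inr (Or.inl h3)
        have h3 := Finset.card_le_card h2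
        have h4 := hQ.card_sdiff (b1 i) (h.cb1 i)
        refine (ih _ (Q \ N (a1 i)) hcard (h.inv_border hI i) (hQ.mono Finset.sdiff_subset)
          (Finset.sdiff_subset_sdiff hQU (Finset.Subset.refl _))).2 ?_
        omega
      -- a pure border move
      have hpm : ∀ (Q : Finset V) (i : ι), Pk N c p Q → Q ⊆ U → a2 i ∈ U → a1 i ∉ Q → b1 i ∉ Q →
          kk N a2 K U ≤ Q.card → WU N c p p U := by
        intro Q i hQ hQU hi hq1 hq2 hkQ
        have hcard : (U \ N (a1 i)).card ≤ n := by
          have h1 : (U \ N (a1 i)).card < U.card := by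
            apply Finset.card_lt_card
            refine ⟨Finset.sdiff_subset, fun hs => ?_⟩
            exact (Finset.mem_sdiff.1 (hs hi)).2 ((h.mem_Na1 i _).2 (Or.inl rfl))
          omega
        refine WU.own U (a1 i) (h.ca1 i) (not_disj ((h.mem_Na1 i _).2 (Or.inl rfl)) hi) ?_
        have h1 := h.kk_border (K := K) hi
        refine (ih _ Q hcard (h.inv_border hI i) hQ ?_).2 ?_
        · intro x hx
          rw [Finset.mem_sdiff]
          refine ⟨hQU hx, fun hx2 => ?_⟩
          rw [h.mem_Na1] at hx2
          rcases hx2 with h3 | h3 | h3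
          · exact h.pk_not_a2 hQ i (h3 ▸ hx)
          · exact hq1 (h3 ▸ hx)
          · exact hq2 (h3 ▸ hx)
        · omega
      by_cases hK : ∃ v ∈ K, ¬ Disjoint (N v) U
      · obtain ⟨v, hv, hd⟩ := hK
        have hcard : (U \ N v).card ≤ n := by
          obtain ⟨x, hx1, hx2⟩ := ex_of_not_disj hd
          have h1 : (U \ N v).card < U.card := by
            apply Finset.card_lt_card
            refine ⟨Finset.sdiff_subset, fun hs => ?_⟩
            exact (Finset.mem_sdiff.1 (hs hx2)).2 hx1
          omega
        refine WU.own U v (h.cK v hv) hd ?_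
        have h1 := kk_K (a2 := a2) hv hd
        have hna1 : ∀ i, a1 i ∉ N v := fun i hi => ((h.NK v hv _ hi).2 i).1 rfl
        have hna2 : ∀ i, a2 i ∉ N v := fun i hi => ((h.NK v hv _ hi).2 i).2 rfl
        have hnb1 : ∀ i, b1 i ∉ N v := fun i hi => bne (h.NK v hv _ hi).1 (h.cb1 i)
        refine (ih _ P hcard ?_ hP ?_).2 ?_
        · intro i
          simp only [Finset.mem_sdiff]
          obtain ⟨h2, h3⟩ := hI i
          constructor
          · intro h4
            refine ⟨h2 ?_, hna2 i⟩
            rcases h4 with h4 | h4
            · exact Or.inl h4.1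
            · exact Or.inr h4.1
          · intro h4 h5
            exact h3 (fun h6 => h4 ⟨h6, hna1 i⟩) h5.1
        · intro x hx
          rw [Finset.mem_sdiff]
          refine ⟨hPU hx, fun hx2 => ?_⟩
          obtain ⟨w, hw, hxw⟩ := hP.1 x hx
          obtain ⟨h2, h3⟩ := h.NK v hv x hx2
          rcases h.opn w x hw hxw with h4 | ⟨i, -, h4⟩
          · exact bne h2 h4
          · exact (h3 i).1 h4
        · omega
      · by_cases hii : ∃ i, a2 i ∈ U ∧ a1 i ∉ U
        · obtain ⟨i, hi2, hi1⟩ := hii
          exact hpm P i hP hPU hi2 (fun h1 => hi1 (hPU h1)) (fun h1 => (hI i).2 hi1 (hPU h1)) hk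
        · have hfull : ∀ i, a2 i ∈ U → a1 i ∈ U := by
            intro i hi
            by_contra h1
            exact hii ⟨i, hi, h1⟩
          by_cases hC : ∃ i, a2 i ∈ U
          · obtain ⟨i0, hi0⟩ := hC
            by_cases hPk : kk N a2 K U + 1 ≤ P.card
            · exact hbm P i0 hP hPU hi0 hPk
            · set C : Finset ι := Finset.univ.filter (fun i => a2 i ∈ U) with hCdef
              have hkk : kk N a2 K U = C.card := by
                unfold kk
                have h1 : K.filter (fun v => ¬ Disjoint (N v) U) = ∅ := by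
                  rw [Finset.filter_eq_empty_iff]
                  intro v hv hd
                  exact hK ⟨v, hv, hd⟩
                rw [h1, Finset.card_empty, Nat.zero_add]
              have hmC : ∀ i, i ∈ C ↔ a2 i ∈ U := by
                intro i
                rw [hCdef, Finset.mem_filter]
                exact ⟨fun h1 => h1.2, fun h1 => ⟨Finset.mem_univ _, h1⟩⟩
              have hinj : Function.Injective a1 := fun i j e => h.a11 i j e
              have hPk0 : ∀ D : Finset ι, Pk N c p (D.image a1) := by
                intro D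
                refine ⟨?_, ?_⟩
                · intro x hx
                  obtain ⟨i, -, rfl⟩ := Finset.mem_image.1 hx
                  exact ⟨b1 i, h.cb1 i, (h.mem_Nb1 i _).2 (Or.inl rfl)⟩
                · intro v hv x hx y hy hxv hyv
                  obtain ⟨i, -, rfl⟩ := Finset.mem_image.1 hx
                  obtain ⟨j, -, rfl⟩ := Finset.mem_image.1 hy
                  rw [h.sep v i j hv (Or.inl hxv) (Or.inl hyv)]
              by_cases hw : ∃ w ∈ U, c w = !p ∧ ∀ i, w ≠ b1 i
              · obtain ⟨w, hwU, hcw, hwb⟩ := hw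
                have hwa : ∀ i, w ≠ a1 i := by
                  rintro i rfl
                  exact bne (h.ca1 i) hcw
                by_cases hcon : ∃ i ∈ C, ∃ v, c v = !p ∧ w ∈ N v ∧ a1 i ∈ N v
                · obtain ⟨i, hiC, v, hv, hwv, hiv⟩ := hcon
                  have hvb := h.a1_opp hv hiv
                  subst hvb
                  have hwb2 : w = b2 i := by
                    rcases (h.mem_Nb1 i w).1 hwv with h1 | h1 | h1
                    · exact absurd h1 (hwa i)
                    · exact absurd h1 (hwb i)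
                    · exact h1
                  have hnotin : w ∉ (C.erase i).image a1 := by
                    intro h1
                    obtain ⟨j, -, h2⟩ := Finset.mem_image.1 h1
                    exact hwa j h2.symm
                  have hcard : (insert w ((C.erase i).image a1)).card = C.card := by
                    rw [Finset.card_insert_of_notMem hnotin, Finset.card_image_of_injective _ hinj,
                      Finset.card_erase_add_one hiC]
                  have hconf : ∀ v', c v' = !p → ∀ j ∈ C.erase i, w ∈ N v' → a1 j ∈ N v' → False := by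
                    intro v' hv' j hj hwv' hjv'
                    have h1 := h.a1_opp hv' hjv'
                    subst h1
                    have hji : j ≠ i := (Finset.mem_erase.1 hj).1
                    rcases (h.mem_Nb1 j w).1 hwv' with h1 | h1 | h1
                    · exact hwa j h1
                    · exact hwb j h1
                    · exact hji (h.b22 j i (h1.symm.trans hwb2))
                  refine hpm (insert w ((C.erase i).image a1)) i ?_ ?_ ((hmC i).1 hiC) ?_ ?_ ?_
                  · refine ⟨?_, ?_⟩
                    · intro x hx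
                      rcases Finset.mem_insert.1 hx with h1 | h1
                      · exact ⟨b1 i, h.cb1 i, h1 ▸ hwv⟩
                      · exact (hPk0 _).1 x h1
                    · intro v' hv' x hx y hy hxv hyv
                      rcases Finset.mem_insert.1 hx with h1 | h1
                      · rcases Finset.mem_insert.1 hy with h2 | h2
                        · rw [h1, h2]
                        · obtain ⟨j, hj, h3⟩ := Finset.mem_image.1 h2
                          exact (hconf v' hv' j hj (h1 ▸ hxv) (h3 ▸ hyv)).elim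
                      · rcases Finset.mem_insert.1 hy with h2 | h2
                        · obtain ⟨j, hj, h3⟩ := Finset.mem_image.1 h1
                          exact (hconf v' hv' j hj (h2 ▸ hyv) (h3 ▸ hxv)).elim
                        · exact (hPk0 _).2 v' hv' x h1 y h2 hxv hyv
                  · intro x hx
                    rcases Finset.mem_insert.1 hx with h1 | h1
                    · exact h1 ▸ hwU
                    · obtain ⟨j, hj, h3⟩ := Finset.mem_image.1 h1
                      rw [← h3]
                      exact hfull j ((hmC j).1 (Finset.mem_erase.1 hj).2)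
                  · intro h1
                    rcases Finset.mem_insert.1 h1 with h2 | h2
                    · exact hwa i h2.symm
                    · obtain ⟨j, hj, h3⟩ := Finset.mem_image.1 h2
                      exact (Finset.mem_erase.1 hj).1 (h.a11 j i h3)
                  · intro h1
                    rcases Finset.mem_insert.1 h1 with h2 | h2
                    · exact hwb i h2.symm
                    · obtain ⟨j, hj, h3⟩ := Finset.mem_image.1 h2
                      exact h.b1_ne_a1 i j h3.symm
                  · rw [hcard, hkk]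
                · have hnotin : w ∉ C.image a1 := by
                    intro h1
                    obtain ⟨j, -, h2⟩ := Finset.mem_image.1 h1
                    exact hwa j h2.symm
                  have hcard : (insert w (C.image a1)).card = C.card + 1 := by
                    rw [Finset.card_insert_of_notMem hnotin, Finset.card_image_of_injective _ hinj]
                  refine hbm (insert w (C.image a1)) i0 ?_ ?_ hi0 ?_
                  · refine ⟨?_, ?_⟩
                    · intro x hx
                      rcases Finset.mem_insert.1 hx with h1 | h1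
                      · exact ⟨w, hcw, h1 ▸ h.self w⟩
                      · exact (hPk0 _).1 x h1
                    · intro v' hv' x hx y hy hxv hyv
                      rcases Finset.mem_insert.1 hx with h1 | h1
                      · rcases Finset.mem_insert.1 hy with h2 | h2
                        · rw [h1, h2]
                        · obtain ⟨j, hj, h3⟩ := Finset.mem_image.1 h2
                          exact (hcon ⟨j, hj, v', hv', h1 ▸ hxv, h3 ▸ hyv⟩).elim
                      · rcases Finset.mem_insert.1 hy with h2 | h2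
                        · obtain ⟨j, hj, h3⟩ := Finset.mem_image.1 h1
                          exact (hcon ⟨j, hj, v', hv', h2 ▸ hyv, h3 ▸ hxv⟩).elim
                        · exact (hPk0 _).2 v' hv' x h1 y h2 hxv hyv
                  · intro x hx
                    rcases Finset.mem_insert.1 hx with h1 | h1
                    · exact h1 ▸ hwU
                    · obtain ⟨j, hj, h3⟩ := Finset.mem_image.1 h1
                      rw [← h3]
                      exact hfull j ((hmC j).1 hj)
                  · rw [hcard, hkk]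
              · -- the end game
                refine (h.final U.card U le_rfl ⟨?_, ?_⟩).1 ⟨i0, hi0⟩
                · intro i
                  exact ⟨⟨fun h1 => (hI i).1 (Or.inl h1), hfull i⟩, fun h1 => (hI i).1 (Or.inr h1)⟩
                · intro u hu
                  by_cases hcu : c u = p
                  · rcases h.cov u hcu with ⟨v, hv, h1⟩ | ⟨i, h1 | h1⟩
                    · exact absurd ⟨v, hv, not_disj h1 hu⟩ hK
                    · exact ⟨i, Or.inl h1⟩
                    · exact ⟨i, Or.inr (Or.inl h1)⟩
                  · have hcu' : c u = !p := by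
                      cases hp : p <;> cases hcu2 : c u <;> simp_all
                    by_contra hno
                    apply hw
                    refine ⟨u, hu, hcu', fun i h1 => hno ⟨i, Or.inr (Or.inr h1)⟩⟩
          · refine WU.done _ fun v hv => ?_
            rw [Finset.disjoint_left]
            intro u hu1 hu2
            rcases h.ownn v u hv hu1 with hcu | ⟨i, -, h1⟩
            · rcases h.cov u hcu with ⟨w, hw, h1⟩ | ⟨i, h1 | h1⟩
              · exact hK ⟨w, hw, not_disj h1 hu2⟩
              · exact hC ⟨i, (hI i).1 (Or.inl (h1 ▸ hu2))⟩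
              · exact hC ⟨i, h1 ▸ hu2⟩
            · exact hC ⟨i, (hI i).1 (Or.inr (h1 ▸ hu2))⟩
    · intro hk
      have hne : P.Nonempty := by
        rw [← Finset.card_pos]
        omega
      obtain ⟨x, hx⟩ := hne
      obtain ⟨v0, hv0, hxv0⟩ := hP.1 x hx
      refine WU.opp U ⟨v0, hv0, not_disj hxv0 (hPU hx)⟩ ?_
      intro v hv hd
      have hcard : (U \ N v).card ≤ n := by
        obtain ⟨y, hy1, hy2⟩ := ex_of_not_disj hd
        have h1 : (U \ N v).card < U.card := by
          apply Finset.card_lt_card
          refine ⟨Finset.sdiff_subset, fun hs => ?_⟩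
          exact (Finset.mem_sdiff.1 (hs hy2)).2 hy1
        omega
      have h1 := hP.card_sdiff v hv
      have h2 : kk N a2 K (U \ N v) ≤ kk N a2 K U := kk_mono Finset.sdiff_subset
      refine (ih _ (P \ N v) hcard ?_ (hP.mono Finset.sdiff_subset)
        (Finset.sdiff_subset_sdiff hPU (Finset.Subset.refl _))).1 ?_
      · intro i
        simp only [Finset.mem_sdiff]
        obtain ⟨h3, h4⟩ := hI i
        constructor
        · intro h5
          refine ⟨h3 ?_, h.a2_opp hv⟩
          rcases h5 with h5 | h5
          · exact Or.inl h5.1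
          · exact Or.inr h5.1
        · intro h5 h6
          by_cases h7 : a1 i ∈ U
          · by_cases h8 : a1 i ∈ N v
            · have h9 := h.a1_opp hv h8
              subst h9
              exact h6.2 (h.self _)
            · exact h5 ⟨h7, h8⟩
          · exact h4 h7 h6.1
      · omega

end

/-- ROW STR. -/
theorem STR : STR_stmt := by
  intro V ι _ _ _ _ N c p a1 a2 a3 b1 b2 K P h hP
  have hI : Inv a1 a2 b1 (Finset.univ : Finset V) := fun i =>
    ⟨fun _ => Finset.mem_univ _, fun h1 => absurd (Finset.mem_univ _) h1⟩
  have hk : kk N a2 K (Finset.univ : Finset V) ≤ K.card + Fintype.card ι := by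
    unfold kk
    apply Nat.add_le_add
    · exact Finset.card_le_card (Finset.filter_subset _ _)
    · exact (Finset.card_le_card (Finset.filter_subset _ _)).trans (le_of_eq Finset.card_univ)
  have h1 := h.main (Finset.univ : Finset V).card Finset.univ P le_rfl hI hP (Finset.subset_univ _)
  exact ⟨fun h2 => h1.1 (by omega), fun h2 => h1.2 (by omega)⟩

end Pool.Agent.helper44.MDG
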