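import Pool.Agent.helper44.MDG.Core

/-!
# Project MG (MP_05a1de_lc, misère partizan domination game on paths and cycles): the rows

THEOREM. Every run (maximal piece of one colour) of a coloured path or cycle has length `≥ 7` (end runs of a
path: `≥ 4`). `α` = sum over Alice's runs of `⌈(length + number of its borders) / 3⌉`, `β` the same for Bob. Then
`α < β`: Alice wins, `β < α`: Bob wins, `α = β`: the first player wins (misère play).

RULES. Row `XXX`: `theorem XXX (hYYY : YYY_stmt) ... : XXX_stmt`, file `Pool/Agent/<seat>/MDG/XXX.lean`,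
`import Pool.Agent.helper44.MDG.Spec`, `set_option autoImplicit false`, `namespace Pool.Agent.helper44.MDG`; no
sorry, no straight double quotes, no `convert`, no `congr!`, no `native_decide`; auxiliary lemmas prefixed `XXX_`.

The vertices of the path / cycle are `Fin n`, the runs are the intervals `[s i, s (i + 1))`, `i < r`; run `i` has the
colour `col e i`. The abstract strategy lemma (`STR`, helper44) needs a `Plan` and a packing (`Core.lean`).
-/

set_option autoImplicit false

namespace Pool.Agent.helper44.MDG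

/-- The colour of run `i`. -/
def col (e : Bool) (i : ℕ) : Bool := if i % 2 = 0 then e else !e

/-- Closed neighbourhoods in the path `0, 1, ..., n - 1`. -/
def NP (n : ℕ) (v : Fin n) : Finset (Fin n) :=
  Finset.univ.filter fun u => u.val = v.val ∨ u.val + 1 = v.val ∨ v.val + 1 = u.val

/-- Closed neighbourhoods in the cycle `0, 1, ..., n - 1, 0`. -/
def NC (n : ℕ) (v : Fin n) : Finset (Fin n) :=
  Finset.univ.filter fun u => u.val = v.val ∨ u.val + 1 = v.val ∨ v.val + 1 = u.val ∨
    (u.val = 0 ∧ v.val + 1 = n) ∨ (v.val = 0 ∧ u.val + 1 = n)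

/-- The runs of a coloured path: run `i < r` is `[s i, s (i + 1))`. -/
structure Runs (n r : ℕ) (s : ℕ → ℕ) (e : Bool) (c : Fin n → Bool) : Prop where
  pos : 0 < r
  s0 : s 0 = 0
  sr : s r = n
  len : ∀ i < r, s i + 4 ≤ s (i + 1)
  len' : ∀ i, 0 < i → i + 1 < r → s i + 7 ≤ s (i + 1)
  colour : ∀ i < r, ∀ v : Fin n, s i ≤ v.val → v.val < s (i + 1) → c v = col e i

/-- The runs of a coloured cycle (numbered such that a run begins at `0`), at least two. -/
structure CRuns (n r : ℕ) (s : ℕ → ℕ) (e : Bool) (c : Fin n → Bool) : Prop where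
  pos : 0 < r
  even : r % 2 = 0
  s0 : s 0 = 0
  sr : s r = n
  len : ∀ i < r, s i + 7 ≤ s (i + 1)
  colour : ∀ i < r, ∀ v : Fin n, s i ≤ v.val → v.val < s (i + 1) → c v = col e i

/-- The number of the borders of run `i` of a path with `r` runs. -/
def bd (r i : ℕ) : ℕ := (if 0 < i then 1 else 0) + (if i + 1 < r then 1 else 0)

/-- `∑ ⌈(length + borders) / 3⌉` over the runs of colour `q`: path. -/
def cntP (r : ℕ) (s : ℕ → ℕ) (e q : Bool) : ℕ :=
  ∑ i ∈ (Finset.range r).filter (fun i => col e i = q), (s (i + 1) - s i + bd r i + 2) / 3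

/-- `∑ ⌈(length + 2) / 3⌉` over the runs of colour `q`: cycle. -/
def cntC (r : ℕ) (s : ℕ → ℕ) (e q : Bool) : ℕ :=
  ∑ i ∈ (Finset.range r).filter (fun i => col e i = q), (s (i + 1) - s i + 2 + 2) / 3

/-! The vertices at border `i` (between run `i` and run `i + 1`), as natural numbers: with `t = s (i + 1)`, if run `i`
belongs to `p`: `a3 a2 a1 | b1 b2` are `t-3 t-2 t-1 | t t+1`, otherwise `b2 b1 | a1 a2 a3` are `t-2 t-1 | t t+1 t+2`. -/

def A1 (s : ℕ → ℕ) (e p : Bool) (i : ℕ) : ℕ := if col e i = p then s (i + 1) - 1 else s (i + 1)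
def A2 (s : ℕ → ℕ) (e p : Bool) (i : ℕ) : ℕ := if col e i = p then s (i + 1) - 2 else s (i + 1) + 1
def A3 (s : ℕ → ℕ) (e p : Bool) (i : ℕ) : ℕ := if col e i = p then s (i + 1) - 3 else s (i + 1) + 2
def B1 (s : ℕ → ℕ) (e p : Bool) (i : ℕ) : ℕ := if col e i = p then s (i + 1) else s (i + 1) - 1
def B2 (s : ℕ → ℕ) (e p : Bool) (i : ℕ) : ℕ := if col e i = p then s (i + 1) + 1 else s (i + 1) - 2

/-- The fields of `Plan` which do not speak of `K`. -/
structure BPlan {V ι : Type} [DecidableEq V] (N : V → Finset V) (c : V → Bool) (p : Bool)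
    (a1 a2 a3 b1 b2 : ι → V) : Prop where
  self : ∀ v, v ∈ N v
  ca1 : ∀ i, c (a1 i) = p
  ca2 : ∀ i, c (a2 i) = p
  ca3 : ∀ i, c (a3 i) = p
  cb1 : ∀ i, c (b1 i) = !p
  Na1 : ∀ i, N (a1 i) = {a2 i, a1 i, b1 i}
  Na2 : ∀ i, N (a2 i) = {a1 i, a2 i, a3 i}
  Nb1 : ∀ i, N (b1 i) = {a1 i, b1 i, b2 i}
  Na3 : ∀ i, a2 i ∈ N (a3 i)
  Na3' : ∀ i j, a1 j ∉ N (a3 i) ∧ b1 j ∉ N (a3 i) ∧ (a2 j ∈ N (a3 i) → j = i)
  a31 : ∀ i j, a3 i ≠ a1 j ∧ a3 i ≠ a2 j
  a11 : ∀ i j, a1 i = a1 j → i = j
  a22 : ∀ i j, a2 i = a2 j → i = j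
  b11 : ∀ i j, b1 i = b1 j → i = j
  a12 : ∀ i j, a1 i ≠ a2 j
  b21 : ∀ i j, b2 i ≠ b1 j
  b22 : ∀ i j, b2 i = b2 j → i = j
  cb2 : ∀ i, c (b2 i) = !p
  opn : ∀ v u, c v = !p → u ∈ N v → c u = !p ∨ ∃ i, v = b1 i ∧ u = a1 i
  ownn : ∀ v u, c v = p → u ∈ N v → c u = p ∨ ∃ i, v = a1 i ∧ u = b1 i
  sep : ∀ v i j, c v = !p → (a1 i ∈ N v ∨ b1 i ∈ N v) → (a1 j ∈ N v ∨ b1 j ∈ N v) → i = j

/-- PPB (medium). The borders of a path. PROOF. Elementary arithmetic (`omega`). Useful first: `s` is monotone on `[0, r]`: for `i < j ≤ r` `s i + 4 ≤ s (i + 1) ≤ s j` (induction); every `v : Fin n` lies in exactly one run `i < r`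
(`Nat.find` of the least `i` with `v < s (i + 1)`), and two vertices of one run have the colour `col e i`; neighbouring runs have different colours (`col e (i + 1) = !(col e i)`). All vertices at border `i` (`i + 1 < r`) are in run `i` or run `i + 1`:
`t - 3 ≥ s i`, `t + 2 < s (i + 2)` (length `≥ 4`). Two different borders `i < j` have `s (i + 1) + 4 ≤ s (j + 1)`, and even `+ 7` if the run between them is the only one (`j = i + 1`: then run `j` is interior, `len'`), and `≥ 7` anyway for `j ≥ i + 1`, as run `i + 1` is interior. -/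
def PPB_stmt : Prop := ∀ (n r : ℕ) (s : ℕ → ℕ) (e p : Bool) (c : Fin n → Bool), Runs n r s e c →
  ∃ a1 a2 a3 b1 b2 : Fin (r - 1) → Fin n, (∀ i, (a1 i).val = A1 s e p i.val) ∧ (∀ i, (a2 i).val = A2 s e p i.val) ∧
    (∀ i, (a3 i).val = A3 s e p i.val) ∧ (∀ i, (b1 i).val = B1 s e p i.val) ∧ (∀ i, (b2 i).val = B2 s e p i.val) ∧
    BPlan (NP n) c p a1 a2 a3 b1 b2

/-- PPK (medium). The fixed plan for a path. PROOF. For run `i` with `col e i = p` let `x = s i + (2 if 0 < i, else 0)`, `y = s (i + 1) - (2 if i + 1 < r, else 0)`: `[x, y)` is the interior part, `y - x ≥ 2` (`≥ 3` if both borders exist; `y - x ≥ 4` if `r = 1`). The vertices of `K` in this run are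
`k j = min (x + 1 + 3 j) (y - 2)` for `j < (y - x + 2) / 3`; they are in `[x, y - 1)`, and if both borders exist or generally on the side of a border the distance to the border is `≥ 4`: `k j - 1 ≥ x` if `0 < i` (as `y - x ≥ 3` if also `i + 1 < r`; if `i + 1 = r` then `y = s (i + 1)` and `y - x ≥ 2`: `k j ≥ x`; CAREFUL: for `y - x = 2`,
`0 < i`, `i + 1 = r` take `k 0 = x + 1` (the last vertex) instead, i.e. for the last run use `min (x + 1 + 3 j) (y - 1)`; for the first run (`i = 0 < r - 1`) use `min (x + 1 + 3 j) (y - 2)`; for `r = 1` any of the two). So `N (k j) ⊆ [x, y)`, and the `N (k j)` cover `[x, y)`. Card: `≤ ∑ (y - x + 2) / 3`.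
`cov`: a vertex of `p` in run `i` is in `[x, y)` or is one of `s i, s i + 1` (`0 < i`: border `i - 1`: `a1, a2`) or `s (i + 1) - 1, s (i + 1) - 2` (border `i`). -/
def PPK_stmt : Prop := ∀ (n r : ℕ) (s : ℕ → ℕ) (e p : Bool) (c : Fin n → Bool), Runs n r s e c →
  ∀ a1 a2 : Fin (r - 1) → Fin n, (∀ i, (a1 i).val = A1 s e p i.val) → (∀ i, (a2 i).val = A2 s e p i.val) →
  ∃ K : Finset (Fin n), (∀ v ∈ K, c v = p) ∧ (∀ v ∈ K, ∀ u ∈ NP n v, c u = p ∧ ∀ i, u ≠ a1 i ∧ u ≠ a2 i) ∧
    (∀ u, c u = p → (∃ v ∈ K, u ∈ NP n v) ∨ ∃ i, u = a1 i ∨ u = a2 i) ∧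
    K.card ≤ ∑ i ∈ (Finset.range r).filter (fun i => col e i = p), (s (i + 1) - s i - 2 * bd r i + 2) / 3

/-- PPC (short). Counting the borders of a path. PROOF. `(ℓ - 2 b + 2) / 3 + b = (ℓ + b + 2) / 3` for `ℓ ≥ 2 b`; and the sum of `bd r i` over the runs `i < r` with `col e i = p` is `r - 1`: each border `i` (`i < r - 1`) belongs to exactly one of the runs `i`, `i + 1` of colour `p`
(`∑_(i<r, col = p) [0 < i] + ∑_(i<r, col = p) [i + 1 < r]`; shift the first sum; or induction on `r` for the two sums separately). -/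
def PPC_stmt : Prop := ∀ (n r : ℕ) (s : ℕ → ℕ) (e p : Bool) (c : Fin n → Bool), Runs n r s e c →
  (∑ i ∈ (Finset.range r).filter (fun i => col e i = p), (s (i + 1) - s i - 2 * bd r i + 2) / 3) + (r - 1) = cntP r s e p

/-- PPP (medium). The packing for a path. PROOF. For run `i` with `col e i = !p` let `x = s i - (1 if 0 < i)`, `y = s (i + 1) + (1 if i + 1 < r)` (`[x, y)` is the union of the closed neighbourhoods of the run, length `ℓ + bd r i`): take the vertices `x + 3 j`, `j < (y - x + 2) / 3` (all `< y`).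
They are pairwise different (also for different runs: the intervals `[x, y)` of two runs of the same colour are disjoint, as a run of length `≥ 7` lies between them), so `P.card = ∑ (y - x + 2) / 3`. Each is in a closed neighbourhood of a vertex of `!p`. If `v` is in run `i`, `col e i = !p`, then `N v ⊆ [x, y)` and two elements of `N v`
differ by at most `2`. -/
def PPP_stmt : Prop := ∀ (n r : ℕ) (s : ℕ → ℕ) (e p : Bool) (c : Fin n → Bool), Runs n r s e c →
  ∃ P : Finset (Fin n), Pk (NP n) c p P ∧ cntP r s e (!p) ≤ P.card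

/-- CPB (medium). The borders of a cycle; there are `r` of them, border `r - 1` is between run `r - 1` and run `0`, at `t = s r = n`, that is `0` (the values are taken modulo `n`). PROOF. As PPB. `col e 0 = !(col e (r - 1))` as `r` is even. -/
def CPB_stmt : Prop := ∀ (n r : ℕ) (s : ℕ → ℕ) (e p : Bool) (c : Fin n → Bool), CRuns n r s e c →
  ∃ a1 a2 a3 b1 b2 : Fin r → Fin n, (∀ i, (a1 i).val = A1 s e p i.val % n) ∧ (∀ i, (a2 i).val = A2 s e p i.val % n) ∧
    (∀ i, (a3 i).val = A3 s e p i.val % n) ∧ (∀ i, (b1 i).val = B1 s e p i.val % n) ∧ (∀ i, (b2 i).val = B2 s e p i.val % n) ∧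
    BPlan (NC n) c p a1 a2 a3 b1 b2

/-- CPK (medium). The fixed plan for a cycle. PROOF. For run `i` with `col e i = p` the interior part is `[s i + 2, s (i + 1) - 2)`, of length `≥ 3`; the vertices of `K`: `min (s i + 3 + 3 j) (s (i + 1) - 4)`, `j < (ℓ - 4 + 2) / 3`. They are at distance `≥ 3` from `0` and `n - 1`, so no wrap. -/
def CPK_stmt : Prop := ∀ (n r : ℕ) (s : ℕ → ℕ) (e p : Bool) (c : Fin n → Bool), CRuns n r s e c →
  ∀ a1 a2 : Fin r → Fin n, (∀ i, (a1 i).val = A1 s e p i.val % n) → (∀ i, (a2 i).val = A2 s e p i.val % n) →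
  ∃ K : Finset (Fin n), (∀ v ∈ K, c v = p) ∧ (∀ v ∈ K, ∀ u ∈ NC n v, c u = p ∧ ∀ i, u ≠ a1 i ∧ u ≠ a2 i) ∧
    (∀ u, c u = p → (∃ v ∈ K, u ∈ NC n v) ∨ ∃ i, u = a1 i ∨ u = a2 i) ∧
    K.card ≤ ∑ i ∈ (Finset.range r).filter (fun i => col e i = p), (s (i + 1) - s i - 4 + 2) / 3

/-- CPC (short). Counting. PROOF. `(ℓ - 4 + 2) / 3 + 2 = (ℓ + 2 + 2) / 3` for `ℓ ≥ 4`; there are `r / 2` runs of colour `p` (`r` even). -/
def CPC_stmt : Prop := ∀ (n r : ℕ) (s : ℕ → ℕ) (e p : Bool) (c : Fin n → Bool), CRuns n r s e c →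
  (∑ i ∈ (Finset.range r).filter (fun i => col e i = p), (s (i + 1) - s i - 4 + 2) / 3) + r = cntC r s e p

/-- CPP (medium). The packing for a cycle. PROOF. As PPP: for run `i` with `col e i = !p` the vertices `s i - 1 + 3 j` modulo `n`, `j < (ℓ + 2 + 2) / 3` (for `i = 0` the first one is `n - 1`; for `i = r - 1` the last one may be `n`, that is `0`). -/
def CPP_stmt : Prop := ∀ (n r : ℕ) (s : ℕ → ℕ) (e p : Bool) (c : Fin n → Bool), CRuns n r s e c →
  ∃ P : Finset (Fin n), Pk (NC n) c p P ∧ cntC r s e (!p) ≤ P.card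

/-! ## The game as in the problem file -/

/-- `S` dominates `u`. -/
def Dom {V : Type} (G : SimpleGraph V) (S : Finset V) (u : V) : Prop := u ∈ S ∨ ∃ w ∈ S, G.Adj u w

/-- `v` is playable when `S` is the set of the selected vertices. -/
def Playable {V : Type} (G : SimpleGraph V) (S : Finset V) (v : V) : Prop :=
  v ∉ S ∧ ∃ u, (u = v ∨ G.Adj v u) ∧ ¬ Dom G S u

/-- The player `p` has a winning strategy in misère play from the position `S`, when `p` (second argument `p`) or the
other player (second argument `!p`) is to move: a player who has no legal selection on his turn wins. -/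
inductive Wins {V : Type} [DecidableEq V] (G : SimpleGraph V) (c : V → Bool) (p : Bool) :
    Bool → Finset V → Prop
  | done (S : Finset V) : (∀ v, c v = p → ¬ Playable G S v) → Wins G c p p S
  | own (S : Finset V) (v : V) : c v = p → Playable G S v → Wins G c p (!p) (insert v S) → Wins G c p p S
  | opp (S : Finset V) : (∃ v, c v = !p ∧ Playable G S v) →
      (∀ v, c v = !p → Playable G S v → Wins G c p p (insert v S)) → Wins G c p (!p) S

/-- BRG (short-medium). From undominated sets to selected sets. PROOF. Induction on `WU` (generalise: for all `S` with `U = univ.filter (¬ Dom G S ·)`); `Playable G S v ↔ ¬ Disjoint (N v) (U S)` (if `v ∈ S` then all of `N v` is dominated), `U (insert v S) = U S \ N v`. Careful with the index `!p` (`cases p` first, or generalise the index `m = !p`). -/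
def BRG_stmt : Prop := ∀ (V : Type) [Fintype V] [DecidableEq V] (G : SimpleGraph V) (N : V → Finset V) (c : V → Bool) (p m : Bool),
  (∀ v u, u ∈ N v ↔ (u = v ∨ G.Adj v u)) → WU N c p m Finset.univ → Wins G c p m ∅

/-- EXC (short-medium). Not both players win. PROOF. Induction on `Wins G c p m S`: `done`: `m = p`, no `p`-vertex is playable; `Wins G c (!p) p S` is `opp` (as `p = !!p`), which has a playable vertex with `c v = !!p = p`: contradiction. `own`: `Wins G c (!p) p S` is `opp`: it gives `Wins G c (!p) (!p) (insert v S)`, against the induction hypothesis.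
`opp`: `m = !p`: `Wins G c (!p) (!p) S` is `done` (contradiction: there is a playable `v` with `c v = !p`) or `own v`: `Wins G c (!p) p (insert v S)` against the induction hypothesis for `v`. -/
def EXC_stmt : Prop := ∀ (V : Type) [DecidableEq V] (G : SimpleGraph V) (c : V → Bool) (p m : Bool) (S : Finset V),
  Wins G c p m S → ¬ Wins G c (!p) m S

/-- STR (medium-long; helper44 writes it). The strategy. -/
def STR_stmt : Prop := ∀ (V ι : Type) [Fintype V] [DecidableEq V] [Fintype ι] [DecidableEq ι] (N : V → Finset V) (c : V → Bool) (p : Bool)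
  (a1 a2 a3 b1 b2 : ι → V) (K P : Finset V), Plan N c p a1 a2 a3 b1 b2 K → Pk N c p P →
  (K.card + Fintype.card ι ≤ P.card → WU N c p p Finset.univ) ∧ (K.card + Fintype.card ι < P.card → WU N c p (!p) Finset.univ)

end Pool.Agent.helper44.MDG
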